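import Pool.Agent.Helper69.SD.Cop
import Pool.Agent.Helper69.SD.Ind

/-! # SD: a point in the radical of the first quadric can be moved

`s` on both quadrics of the fibre, `w(s) ≠ 0`, `s` in the radical of `H 0`.  For `v = (x', 0)` or `(0, y')` the point
`s' = -H 1 v • s + B 1 (s, v) • v` is on both quadrics.
-/

set_option autoImplicit false
set_option linter.unusedVariables false
set_option linter.unusedSectionVars false

namespace Pool.Agent.Helper94.SD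

open MvPolynomial Module Matrix QuadraticMap Pool.Agent.Helper16 Pool.Agent.Helper69.SD

variable {D : Dat}

/-- a smooth form is not a sum of two products of polynomials without constant term -/
theorem not_two {F g k g' k' : MvPolynomial (Fin 6) ℂ} (hs : Smooth F) (hg : eval 0 g = 0)
    (hk : eval 0 k = 0) (hg' : eval 0 g' = 0) (hk' : eval 0 k' = 0) (h : F = g * k + g' * k') :
    False := by
  obtain ⟨x, hx, hx0⟩ := exists_common_zero ![g, k, g', k'] (by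
    intro i
    fin_cases i
    · exact hg
    · exact hk
    · exact hg'
    · exact hk') (by simp)
  obtain ⟨i, hi⟩ := hs x hx
  apply hi
  have e0 : eval x g = 0 := hx0 0
  have e1 : eval x k = 0 := hx0 1
  have e2 : eval x g' = 0 := hx0 2
  have e3 : eval x k' = 0 := hx0 3
  subst h
  simp only [map_add, Derivation.leibniz, smul_eq_mul, map_mul, e0, e1, e2, e3]
  ring

/-- determinant of three columns -/
def d3 {R : Type} [CommRing R] (a b c : Fin 3 → R) : R :=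
  a 0 * b 1 * c 2 - a 0 * c 1 * b 2 - b 0 * a 1 * c 2 + b 0 * c 1 * a 2 + c 0 * a 1 * b 2 -
    c 0 * b 1 * a 2

/-- the `2 x 2` blocks of the three matrices are not pairwise proportional -/
theorem prop_false (hs : Smooth D.F) (N : Fin 2 → Fin 2 → ℂ) (lam : Fin 3 → ℂ)
    (h00 : ∀ i, D.A i 0 0 = lam i * N 0 0) (h01 : ∀ i, D.A i 0 1 = lam i * N 0 1)
    (h10 : ∀ i, D.A i 1 0 = lam i * N 1 0) (h11 : ∀ i, D.A i 1 1 = lam i * N 1 1) : False := by
  obtain ⟨x1, hx1⟩ : ∃ x1 : MvPolynomial (Fin 6) ℂ, x1 = C (N 0 0) * X 0 + C (N 1 0) * X 1 := ⟨_, rfl⟩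
  obtain ⟨x2, hx2⟩ : ∃ x2 : MvPolynomial (Fin 6) ℂ, x2 = C (N 0 1) * X 0 + C (N 1 1) * X 1 := ⟨_, rfl⟩
  obtain ⟨y1, hy1⟩ : ∃ y1 : MvPolynomial (Fin 6) ℂ, y1 = C (N 0 0) * X 2 + C (N 0 1) * X 3 := ⟨_, rfl⟩
  obtain ⟨y2, hy2⟩ : ∃ y2 : MvPolynomial (Fin 6) ℂ, y2 = C (N 1 0) * X 2 + C (N 1 1) * X 3 := ⟨_, rfl⟩
  have hcx0 : ∀ i, D.cx (MvPolynomial (Fin 6) ℂ) i 0 (v5 X) = C (lam i) * x1 + C (D.A i 2 0) * X 4 := by
    intro i
    rw [cx_apply, h00, h10, hx1]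
    simp only [cc, MvPolynomial.algebraMap_eq, C_mul, v5]
    simp
    ring
  have hcx1 : ∀ i, D.cx (MvPolynomial (Fin 6) ℂ) i 1 (v5 X) = C (lam i) * x2 + C (D.A i 2 1) * X 4 := by
    intro i
    rw [cx_apply, h01, h11, hx2]
    simp only [cc, MvPolynomial.algebraMap_eq, C_mul, v5]
    simp
    ring
  have hcy0 : ∀ i, D.cy (MvPolynomial (Fin 6) ℂ) i 0 (v5 X) = C (lam i) * y1 + C (D.A i 0 2) * X 4 := by
    intro i
    rw [cy_apply, h00, h01, hy1]
    simp only [cc, MvPolynomial.algebraMap_eq, C_mul, v5]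
    simp
    ring
  have hcy1 : ∀ i, D.cy (MvPolynomial (Fin 6) ℂ) i 1 (v5 X) = C (lam i) * y2 + C (D.A i 1 2) * X 4 := by
    intro i
    rw [cy_apply, h10, h11, hy2]
    simp only [cc, MvPolynomial.algebraMap_eq, C_mul, v5]
    simp
    ring
  obtain ⟨cxt, hcxt⟩ : ∃ c : Fin 3 → MvPolynomial (Fin 6) ℂ,
    ∀ i, D.cx (MvPolynomial (Fin 6) ℂ) i 2 (v5 X) = c i := ⟨_, fun _ => rfl⟩
  obtain ⟨cyt, hcyt⟩ : ∃ c : Fin 3 → MvPolynomial (Fin 6) ℂ,
    ∀ i, D.cy (MvPolynomial (Fin 6) ℂ) i 2 (v5 X) = c i := ⟨_, fun _ => rfl⟩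
  have hBq : ∀ i, D.Bq (MvPolynomial (Fin 6) ℂ) i (v5 X) =
      C (lam i) * (X 2 * x1 + X 3 * x2) +
        X 4 * (C (D.A i 2 0) * X 2 + C (D.A i 2 1) * X 3 + cxt i) := by
    intro i
    rw [Bq_apply, hcx0, hcx1, hcxt]
    simp only [v5]
    simp
    ring
  obtain ⟨L, hL⟩ : ∃ L : Fin 3 → MvPolynomial (Fin 6) ℂ, ∀ i, ∑ j, C (D.l i j) * X j = L i :=
    ⟨_, fun _ => rfl⟩
  obtain ⟨dl, hdl⟩ : ∃ dl : Fin 3 → MvPolynomial (Fin 6) ℂ, dl = ![X 5, 0, 0] := ⟨_, rfl⟩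
  have key : D.F = X 4 * (C D.a * (x1 * d3 (fun i => C (lam i)) (fun i => C (D.A i 2 1))
          (fun i => cxt i + dl i) +
        x2 * d3 (fun i => C (D.A i 2 0)) (fun i => C (lam i)) (fun i => cxt i + dl i) +
        X 4 * d3 (fun i => C (D.A i 2 0)) (fun i => C (D.A i 2 1)) (fun i => cxt i + dl i)) +
      C D.b * (y1 * d3 (fun i => C (lam i)) (fun i => C (D.A i 1 2)) (fun i => cyt i + dl i) +
        y2 * d3 (fun i => C (D.A i 0 2)) (fun i => C (lam i)) (fun i => cyt i + dl i) +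
        X 4 * d3 (fun i => C (D.A i 0 2)) (fun i => C (D.A i 1 2)) (fun i => cyt i + dl i)) +
      ∑ i, L i * (C (D.A i 2 0) * X 2 + C (D.A i 2 1) * X 3 + cxt i + dl i)) +
      (∑ i, C (lam i) * L i) * (X 2 * x1 + X 3 * x2) := by
    subst hdl
    simp only [Dat.F, Dat.cubic, det_fin_three, Fin.sum_univ_three, Q_apply, mx_apply, my_apply,
      MvPolynomial.algebraMap_eq, hcx0, hcx1, hcxt, hcy0, hcy1, hcyt, hBq, hL, d3]
    simp
    ring
  refine not_two hs ?_ ?_ ?_ ?_ key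
  · simp
  · subst hdl
    have hL0 : ∀ i, constantCoeff (L i) = 0 := by
      intro i
      rw [← hL]
      simp
    simp [hx1, hx2, hy1, hy2, hL0, Fin.sum_univ_three]
  · simp only [← hL]
    simp
  · simp

/-- a matrix `B` all of whose rows combinations are parallel to those of an invertible matrix `N` is a multiple of `N` -/
theorem par_of (N B : Fin 2 → Fin 2 → ℂ) (hN : N 0 0 * N 1 1 - N 0 1 * N 1 0 ≠ 0)
    (e0 : N 0 0 * B 0 1 - N 0 1 * B 0 0 = 0) (e1 : N 1 0 * B 1 1 - N 1 1 * B 1 0 = 0)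
    (e2 : N 0 0 * B 1 1 + N 1 0 * B 0 1 - N 0 1 * B 1 0 - N 1 1 * B 0 0 = 0) :
    ∃ lam : ℂ, ∀ i j, B i j = lam * N i j := by
  refine ⟨(B 0 0 * N 1 1 - B 0 1 * N 1 0) / (N 0 0 * N 1 1 - N 0 1 * N 1 0), fun i j => ?_⟩
  rw [div_mul_eq_mul_div, eq_div_iff hN]
  fin_cases i <;> fin_cases j
  · change B 0 0 * (N 0 0 * N 1 1 - N 0 1 * N 1 0) = (B 0 0 * N 1 1 - B 0 1 * N 1 0) * N 0 0
    linear_combination N 1 0 * e0
  · change B 0 1 * (N 0 0 * N 1 1 - N 0 1 * N 1 0) = (B 0 0 * N 1 1 - B 0 1 * N 1 0) * N 0 1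
    linear_combination N 1 1 * e0
  · change B 1 0 * (N 0 0 * N 1 1 - N 0 1 * N 1 0) = (B 0 0 * N 1 1 - B 0 1 * N 1 0) * N 1 0
    linear_combination N 1 0 * e2 - N 0 0 * e1
  · change B 1 1 * (N 0 0 * N 1 1 - N 0 1 * N 1 0) = (B 0 0 * N 1 1 - B 0 1 * N 1 0) * N 1 1
    linear_combination N 1 1 * e2 - N 0 1 * e1

/-- constant coefficients in `T₁, T₂` -/
theorem three_zero {q0 q1 q2 : ℂ}
    (h : (C q0 + X 0 * C q1 + X 1 * C q2 : MvPolynomial (Fin 2) ℂ) = 0) :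
    q0 = 0 ∧ q1 = 0 ∧ q2 = 0 := by
  have h0 := congrArg (eval ![0, 0]) h
  have h1 := congrArg (eval ![1, 0]) h
  have h2 := congrArg (eval ![0, 1]) h
  simp at h0 h1 h2
  subst h0
  simp at h1 h2
  exact ⟨rfl, h1, h2⟩

theorem all_par (hs : Smooth D.F) (hn : ∃ c : Fin 2 → ℂ, D.dt c ≠ 0)
    (h : ∀ i j : Fin 3, (D.A i 0 0 * D.A j 0 1 - D.A i 0 1 * D.A j 0 0 = 0) ∧
      (D.A i 1 0 * D.A j 1 1 - D.A i 1 1 * D.A j 1 0 = 0) ∧
      (D.A i 0 0 * D.A j 1 1 + D.A i 1 0 * D.A j 0 1 - D.A i 0 1 * D.A j 1 0 -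
        D.A i 1 1 * D.A j 0 0 = 0)) : False := by
  obtain ⟨c, hc⟩ := hn
  obtain ⟨N, hN⟩ : ∃ N : Fin 2 → Fin 2 → ℂ, N = ![![D.n c 0 0, D.n c 0 1], ![D.n c 1 0, D.n c 1 1]] :=
    ⟨_, rfl⟩
  have hpar : ∀ i, ∃ lam : ℂ, ∀ k l, ![![D.A i 0 0, D.A i 0 1], ![D.A i 1 0, D.A i 1 1]] k l =
      lam * N k l := by
    intro i
    refine par_of N _ ?_ ?_ ?_ ?_
    · rw [hN]
      exact hc
    · rw [hN]
      simp only [Dat.n, cc, Algebra.algebraMap_self, RingHom.id_apply, cons_val_zero, cons_val_one]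
      linear_combination c 0 * (h 2 i).1 - c 1 * (h 1 i).1
    · rw [hN]
      simp only [Dat.n, cc, Algebra.algebraMap_self, RingHom.id_apply, cons_val_zero, cons_val_one]
      linear_combination c 0 * (h 2 i).2.1 - c 1 * (h 1 i).2.1
    · rw [hN]
      simp only [Dat.n, cc, Algebra.algebraMap_self, RingHom.id_apply, cons_val_zero, cons_val_one]
      linear_combination c 0 * (h 2 i).2.2 - c 1 * (h 1 i).2.2
  choose lam hlam using hpar
  exact prop_false hs N lam (fun i => hlam i 0 0) (fun i => hlam i 0 1) (fun i => hlam i 1 0)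
    (fun i => hlam i 1 1)

theorem all_par' (hs : Smooth D.F) (hn : ∃ c : Fin 2 → ℂ, D.dt c ≠ 0)
    (h : ∀ i j : Fin 3, (D.A i 0 0 * D.A j 1 0 - D.A i 1 0 * D.A j 0 0 = 0) ∧
      (D.A i 0 1 * D.A j 1 1 - D.A i 1 1 * D.A j 0 1 = 0) ∧
      (D.A i 0 0 * D.A j 1 1 + D.A i 0 1 * D.A j 1 0 - D.A i 1 0 * D.A j 0 1 -
        D.A i 1 1 * D.A j 0 0 = 0)) : False := by
  obtain ⟨c, hc⟩ := hn
  obtain ⟨N, hN⟩ : ∃ N : Fin 2 → Fin 2 → ℂ, N = ![![D.n c 0 0, D.n c 1 0], ![D.n c 0 1, D.n c 1 1]] :=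
    ⟨_, rfl⟩
  have hpar : ∀ i, ∃ lam : ℂ, ∀ k l, ![![D.A i 0 0, D.A i 1 0], ![D.A i 0 1, D.A i 1 1]] k l =
      lam * N k l := by
    intro i
    refine par_of N _ ?_ ?_ ?_ ?_
    · rw [hN]
      intro h0
      apply hc
      rw [Dat.dt]
      simp only [cons_val_zero, cons_val_one] at h0
      linear_combination h0
    · rw [hN]
      simp only [Dat.n, cc, Algebra.algebraMap_self, RingHom.id_apply, cons_val_zero, cons_val_one]
      linear_combination c 0 * (h 2 i).1 - c 1 * (h 1 i).1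
    · rw [hN]
      simp only [Dat.n, cc, Algebra.algebraMap_self, RingHom.id_apply, cons_val_zero, cons_val_one]
      linear_combination c 0 * (h 2 i).2.1 - c 1 * (h 1 i).2.1
    · rw [hN]
      simp only [Dat.n, cc, Algebra.algebraMap_self, RingHom.id_apply, cons_val_zero, cons_val_one]
      linear_combination c 0 * (h 2 i).2.2 - c 1 * (h 1 i).2.2
  choose lam hlam using hpar
  exact prop_false hs (fun k l => N l k) lam (fun i => hlam i 0 0) (fun i => hlam i 1 0)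
    (fun i => hlam i 0 1) (fun i => hlam i 1 1)

/-- the value of `H 1` at `(x', 0)`, `x'` constant -/
theorem H2_x (D : Dat) (x : Fin 2 → ℂ) (t : Fin 2 → P2) :
    D.H2 t (emb ![C (x 0), C (x 1), 0, 0]) = t 0 * (C D.a *
      (C (D.qx ℂ 0 ![x 0, x 1, 0, 0, 0]) + t 0 * C (D.qx ℂ 1 ![x 0, x 1, 0, 0, 0]) +
        t 1 * C (D.qx ℂ 2 ![x 0, x 1, 0, 0, 0]))) := by
  have h1 : ∀ i, D.qx P2 i (emb ![C (x 0), C (x 1), 0, 0]) = C (D.qx ℂ i ![x 0, x 1, 0, 0, 0]) := by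
    intro i
    have h2 := map_qx (Algebra.ofId ℂ P2) D i ![x 0, x 1, 0, 0, 0]
    rw [show ((Algebra.ofId ℂ P2) : ℂ → P2) (D.qx ℂ i ![x 0, x 1, 0, 0, 0]) =
      C (D.qx ℂ i ![x 0, x 1, 0, 0, 0]) from rfl] at h2
    rw [h2]
    congr 1
    funext j
    fin_cases j <;> simp [emb_apply, Algebra.ofId_apply]
  rw [H2_apply, h1, h1, h1]
  simp only [qy_apply, cy_apply, Bq_apply, cx_apply, emb_apply]
  simp [cc, MvPolynomial.algebraMap_eq]

/-- the value of `H 1` at `(0, y')`, `y'` constant -/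
theorem H2_y (D : Dat) (y : Fin 2 → ℂ) (t : Fin 2 → P2) :
    D.H2 t (emb ![0, 0, C (y 0), C (y 1)]) = t 0 * (C D.b *
      (C (D.qy ℂ 0 ![0, 0, y 0, y 1, 0]) + t 0 * C (D.qy ℂ 1 ![0, 0, y 0, y 1, 0]) +
        t 1 * C (D.qy ℂ 2 ![0, 0, y 0, y 1, 0]))) := by
  have h1 : ∀ i, D.qy P2 i (emb ![0, 0, C (y 0), C (y 1)]) = C (D.qy ℂ i ![0, 0, y 0, y 1, 0]) := by
    intro i
    have h2 := map_qy (Algebra.ofId ℂ P2) D i ![0, 0, y 0, y 1, 0]
    rw [show ((Algebra.ofId ℂ P2) : ℂ → P2) (D.qy ℂ i ![0, 0, y 0, y 1, 0]) =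
      C (D.qy ℂ i ![0, 0, y 0, y 1, 0]) from rfl] at h2
    rw [h2]
    congr 1
    funext j
    fin_cases j <;> simp [emb_apply, Algebra.ofId_apply]
  rw [H2_apply, h1, h1, h1]
  simp only [qx_apply, cx_apply, Bq_apply, emb_apply]
  simp [cc, MvPolynomial.algebraMap_eq]

/-- `H 1` is not identically zero on `{y' = w = 0}` -/
theorem exists_x (hs : Smooth D.F) (ha : D.a ≠ 0) (hn : ∃ c : Fin 2 → ℂ, D.dt c ≠ 0) :
    ∃ x : Fin 2 → ℂ, D.H2 (X : Fin 2 → P2) (emb ![C (x 0), C (x 1), 0, 0]) ≠ 0 := by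
  by_contra hcon
  push Not at hcon
  have h1 : ∀ (x : Fin 2 → ℂ) (i : Fin 3), D.qx ℂ i ![x 0, x 1, 0, 0, 0] = 0 := by
    intro x
    have h2 := hcon x
    rw [H2_x] at h2
    have h3 := (mul_eq_zero.1 ((mul_eq_zero.1 h2).resolve_left (X_ne_zero 0))).resolve_left
      (by simpa using ha)
    obtain ⟨q0, q1, q2⟩ := three_zero h3
    intro i
    fin_cases i
    · exact q0
    · exact q1
    · exact q2
  have key : ∀ i j : Fin 3, ∀ x : Fin 2 → ℂ,
      D.cx ℂ i 0 ![x 0, x 1, 0, 0, 0] * D.cx ℂ j 1 ![x 0, x 1, 0, 0, 0] -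
      D.cx ℂ i 1 ![x 0, x 1, 0, 0, 0] * D.cx ℂ j 0 ![x 0, x 1, 0, 0, 0] = 0 := by
    intro i j x
    have q0 := h1 x 0
    have q1 := h1 x 1
    have q2 := h1 x 2
    rw [qx_apply] at q0 q1 q2
    simp only [show (0 : Fin 3) + 1 = 1 from rfl, show (0 : Fin 3) + 2 = 2 from rfl,
      show (1 : Fin 3) + 1 = 2 from rfl, show (1 : Fin 3) + 2 = 0 from rfl,
      show (2 : Fin 3) + 1 = 0 from rfl, show (2 : Fin 3) + 2 = 1 from rfl] at q0 q1 q2
    fin_cases i <;> fin_cases j <;>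
      simp only [Fin.zero_eta, Fin.mk_one, Fin.reduceFinMk]
    · ring
    · linear_combination q2
    · linear_combination -q1
    · linear_combination -q2
    · ring
    · linear_combination q0
    · linear_combination q1
    · linear_combination -q0
    · ring
  refine all_par hs hn fun i j => ?_
  have k0 := key i j ![1, 0]
  have k1 := key i j ![0, 1]
  have k2 := key i j ![1, 1]
  simp [cx_apply, cc] at k0 k1 k2
  refine ⟨by linear_combination k0, by linear_combination k1, by linear_combination k2 - k0 - k1⟩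

/-- `H 1` is not identically zero on `{x' = w = 0}` -/
theorem exists_y (hs : Smooth D.F) (hb : D.b ≠ 0) (hn : ∃ c : Fin 2 → ℂ, D.dt c ≠ 0) :
    ∃ y : Fin 2 → ℂ, D.H2 (X : Fin 2 → P2) (emb ![0, 0, C (y 0), C (y 1)]) ≠ 0 := by
  by_contra hcon
  push Not at hcon
  have h1 : ∀ (x : Fin 2 → ℂ) (i : Fin 3), D.qy ℂ i ![0, 0, x 0, x 1, 0] = 0 := by
    intro x
    have h2 := hcon x
    rw [H2_y] at h2
    have h3 := (mul_eq_zero.1 ((mul_eq_zero.1 h2).resolve_left (X_ne_zero 0))).resolve_left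
      (by simpa using hb)
    obtain ⟨q0, q1, q2⟩ := three_zero h3
    intro i
    fin_cases i
    · exact q0
    · exact q1
    · exact q2
  have key : ∀ i j : Fin 3, ∀ x : Fin 2 → ℂ,
      D.cy ℂ i 0 ![0, 0, x 0, x 1, 0] * D.cy ℂ j 1 ![0, 0, x 0, x 1, 0] -
      D.cy ℂ i 1 ![0, 0, x 0, x 1, 0] * D.cy ℂ j 0 ![0, 0, x 0, x 1, 0] = 0 := by
    intro i j x
    have q0 := h1 x 0
    have q1 := h1 x 1
    have q2 := h1 x 2
    rw [qy_apply] at q0 q1 q2
    simp only [show (0 : Fin 3) + 1 = 1 from rfl, show (0 : Fin 3) + 2 = 2 from rfl,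
      show (1 : Fin 3) + 1 = 2 from rfl, show (1 : Fin 3) + 2 = 0 from rfl,
      show (2 : Fin 3) + 1 = 0 from rfl, show (2 : Fin 3) + 2 = 1 from rfl] at q0 q1 q2
    fin_cases i <;> fin_cases j <;>
      simp only [Fin.zero_eta, Fin.mk_one, Fin.reduceFinMk]
    · ring
    · linear_combination q2
    · linear_combination -q1
    · linear_combination -q2
    · ring
    · linear_combination q0
    · linear_combination q1
    · linear_combination -q0
    · ring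
  refine all_par' hs hn fun i j => ?_
  have k0 := key i j ![1, 0]
  have k1 := key i j ![0, 1]
  have k2 := key i j ![1, 1]
  simp [cy_apply, cc] at k0 k1 k2
  refine ⟨by linear_combination k0, by linear_combination k1, by linear_combination k2 - k0 - k1⟩

/-- a point over the generic fibre: the second linear form is not zero on `w = 0` -/
theorem f1_ne (hs : Smooth D.F) {s : Fin 5 → P2} (hH : ∀ i, D.H (X : Fin 2 → P2) i s = 0)
    (hw : s 4 ≠ 0) : ∃ v : Fin 4 → P2, D.f X s 1 v ≠ 0 := by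
  by_contra hcon
  push Not at hcon
  have hX : (X 0 : P2) ≠ 0 := X_ne_zero 0
  obtain ⟨e0, e1, e2⟩ := Q_lift D (X : Fin 2 → P2) s (hH 0)
  have h5 : v5 (D.lift X s) = ((X 0 : P2) * s 4) • s := by
    funext i
    fin_cases i <;> rfl
  have hcub := cubic_lift D (X : Fin 2 → P2) s hX hw (hH 0) (hH 1)
  have hHl : ∀ i, D.H (X : Fin 2 → P2) i (v5 (D.lift X s)) = 0 := by
    intro i
    rw [h5, QuadraticMap.map_smul, hH i, smul_zero]
  have hC : ∑ i, tv (X : Fin 2 → P2) i * D.C (D.lift X s) i = 0 := by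
    have h6 := H2_eq D (X : Fin 2 → P2) (D.lift X s)
    have h6' : D.H2 (X : Fin 2 → P2) (v5 (D.lift X s)) = 0 := hHl 1
    rw [h6', e1] at h6
    have h7 : (X 0 : P2) * ∑ i, tv (X : Fin 2 → P2) i * D.C (D.lift X s) i = 0 := by
      linear_combination -h6
    exact (mul_eq_zero.1 h7).resolve_left hX
  have h8 := indep_aux hs hcub (mul_ne_zero (mul_ne_zero hX hw) hw) e1 e2 hC hHl 0 1 (fun v => by
    rw [h5, zero_mul, zero_add, one_mul, Dat.f, polar_smul_left]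
    have := hcon v
    rw [Dat.f] at this
    rw [this, smul_zero])
  exact one_ne_zero h8.1

/-- a linear form and a quadratic form which are not zero have a common nonzero: the point is `v` or `u ± v` or `u` -/
theorem common_ne {V : Type} [AddCommGroup V] [Module P2 V] (f : V →ₗ[P2] P2) (q : QuadraticForm P2 V)
    {u v : V} (hu : f u ≠ 0) (hv : q v ≠ 0) (W : Submodule P2 V) (huW : u ∈ W) (hvW : v ∈ W) :
    ∃ x ∈ W, f x ≠ 0 ∧ q x ≠ 0 := by
  by_cases hfv : f v = 0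
  · by_cases h0 : q u = 0
    · by_cases h1 : q (u + v) = 0
      · refine ⟨u - v, W.sub_mem huW hvW, by rw [map_sub, hfv, sub_zero]; exact hu, fun h2 => hv ?_⟩
        have e1 : q (u + v) = q u + q v + polar q u v := by rw [polar]; ring
        have e2 : q (u - v) = q u + q v - polar q u v := by
          rw [sub_eq_add_neg]
          have : polar q u (-v) = -polar q u v := polar_neg_right q u v
          rw [polar, QuadraticMap.map_neg] at this
          linear_combination this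
        have h3 : (2 : P2) * q v = 0 := by linear_combination h1 + h2 - e1 - e2 - 2 * h0
        exact (mul_eq_zero.1 h3).resolve_left two_ne_zero
      · exact ⟨u + v, W.add_mem huW hvW, by rw [map_add, hfv, add_zero]; exact hu, h1⟩
    · exact ⟨u, huW, hu, h0⟩
  · exact ⟨v, hvW, hfv, hv⟩

theorem dt_ne (hn : ∃ c : Fin 2 → ℂ, D.dt c ≠ 0) : D.dt (X : Fin 2 → P2) ≠ 0 := by
  obtain ⟨c, hc⟩ := hn
  intro h
  apply hc
  have h1 := map_dt (aeval c : P2 →ₐ[ℂ] ℂ) D X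
  rw [h, map_zero] at h1
  have h2 : ((aeval c : P2 →ₐ[ℂ] ℂ) ∘ X) = c := by
    funext m
    simp
  rw [h2] at h1
  exact h1.symm

/-- the first quadric is not degenerate on `w = 0` -/
theorem nondeg (D : Dat) (hn : ∃ c : Fin 2 → ℂ, D.dt c ≠ 0) {v : Fin 4 → P2} (hv : v ≠ 0) :
    ∃ u : Fin 4 → P2, polar (D.H1 (X : Fin 2 → P2)) (emb v) (emb u) ≠ 0 := by
  obtain ⟨N, hN⟩ : ∃ N : Fin 3 → Fin 3 → P2, N = D.n (X : Fin 2 → P2) := ⟨_, rfl⟩
  have hdt : N 0 0 * N 1 1 - N 0 1 * N 1 0 ≠ 0 := by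
    rw [hN]
    exact dt_ne hn
  have hpol : ∀ u : Fin 4 → P2, polar (D.H1 (X : Fin 2 → P2)) (emb v) (emb u) =
      v 0 * (N 0 0 * u 2 + N 0 1 * u 3) + v 1 * (N 1 0 * u 2 + N 1 1 * u 3) +
      u 0 * (N 0 0 * v 2 + N 0 1 * v 3) + u 1 * (N 1 0 * v 2 + N 1 1 * v 3) := by
    intro u
    rw [hN]
    simp only [polar, H1_apply, Bq_apply, cx_apply, emb_apply, Pi.add_apply]
    simp [Dat.n]
    ring
  obtain ⟨j, hj⟩ : ∃ j, v j ≠ 0 := by
    by_contra hcon
    push Not at hcon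
    exact hv (funext hcon)
  fin_cases j
  · refine ⟨![0, 0, N 1 1, -N 1 0], ?_⟩
    rw [hpol]
    intro h
    simp at h
    have hj' : v 0 ≠ 0 := hj
    exact mul_ne_zero hdt hj' (by linear_combination h)
  · refine ⟨![0, 0, -N 0 1, N 0 0], ?_⟩
    rw [hpol]
    intro h
    simp at h
    have hj' : v 1 ≠ 0 := hj
    exact mul_ne_zero hdt hj' (by linear_combination h)
  · refine ⟨![N 1 1, -N 0 1, 0, 0], ?_⟩
    rw [hpol]
    intro h
    simp at h
    have hj' : v 2 ≠ 0 := hj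
    exact mul_ne_zero hdt hj' (by linear_combination h)
  · refine ⟨![-N 1 0, N 0 0, 0, 0], ?_⟩
    rw [hpol]
    intro h
    simp at h
    have hj' : v 3 ≠ 0 := hj
    exact mul_ne_zero hdt hj' (by linear_combination h)

/-- the move -/
theorem rad_move (D : Dat) {s : Fin 5 → P2} (hH : ∀ i, D.H (X : Fin 2 → P2) i s = 0) (hw : s 4 ≠ 0)
    (hrad : ∀ v : Fin 4 → P2, D.f X s 0 v = 0) (hn : ∃ c : Fin 2 → ℂ, D.dt c ≠ 0)
    {v : Fin 4 → P2} (h0 : D.h (X : Fin 2 → P2) 0 v = 0) (h1 : D.h (X : Fin 2 → P2) 1 v ≠ 0)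
    (hf : D.f X s 1 v ≠ 0) :
    ∃ s' : Fin 5 → P2, (∀ i, D.H (X : Fin 2 → P2) i s' = 0) ∧ s' 4 ≠ 0 ∧
      ∃ u : Fin 4 → P2, D.f X s' 0 u ≠ 0 := by
  have h7 : ∀ (i : Fin 2) (x y : Fin 5 → P2), D.H (X : Fin 2 → P2) i (x + y) =
      D.H X i x + D.H X i y + polar (D.H X i) x y := by
    intro i x y
    rw [polar]
    ring
  have hv : v ≠ 0 := by
    rintro rfl
    apply h1
    rw [Dat.h, map_zero, QuadraticMap.map_zero]
  obtain ⟨u, hu⟩ := nondeg D hn hv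
  refine ⟨(-D.h X 1 v) • s + D.f X s 1 v • emb v, ?_, ?_, u, ?_⟩
  · intro i
    rw [h7, QuadraticMap.map_smul, QuadraticMap.map_smul, hH i, polar_smul_left, polar_smul_right]
    have e1 : polar (D.H (X : Fin 2 → P2) i) s (emb v) = D.f X s i v := rfl
    have e2 : D.H (X : Fin 2 → P2) i (emb v) = D.h X i v := rfl
    rw [e1, e2]
    fin_cases i
    · simp only [Fin.zero_eta, smul_eq_mul, h0, hrad v]
      ring
    · simp only [Fin.mk_one, smul_eq_mul]
      ring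
  · have e4 : (emb v : Fin 5 → P2) 4 = 0 := by rw [emb_apply]; rfl
    rw [Pi.add_apply, Pi.smul_apply, Pi.smul_apply, e4, smul_zero, add_zero, smul_eq_mul]
    exact mul_ne_zero (neg_ne_zero.2 h1) hw
  · rw [Dat.f, polar_add_left, polar_smul_left, polar_smul_left]
    have e1 : polar (D.H (X : Fin 2 → P2) 0) s (emb u) = 0 := hrad u
    have e2 : polar (D.H (X : Fin 2 → P2) 0) (emb v) (emb u) =
      polar (D.H1 (X : Fin 2 → P2)) (emb v) (emb u) := rfl
    rw [e1, e2, smul_zero, zero_add, smul_eq_mul]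
    exact mul_ne_zero hf hu

/-- piece `(D)` of the odd degree form: a point in the radical of the first quadric can be moved. -/
theorem rad_case (hs : Smooth D.F) (ha : D.a ≠ 0) (hb : D.b ≠ 0)
    (hn : ∃ c : Fin 2 → ℂ, D.dt c ≠ 0) {s : Fin 5 → P2} (hH : ∀ i, D.H (X : Fin 2 → P2) i s = 0)
    (hw : s 4 ≠ 0) (hrad : ∀ v : Fin 4 → P2, D.f X s 0 v = 0) :
    ∃ s' : Fin 5 → P2, (∀ i, D.H (X : Fin 2 → P2) i s' = 0) ∧ s' 4 ≠ 0 ∧
      ∃ u : Fin 4 → P2, D.f X s' 0 u ≠ 0 := by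
  obtain ⟨v, hv⟩ := f1_ne hs hH hw
  -- the linear form and the quadratic form on `w = 0`
  obtain ⟨f, hf⟩ : ∃ f : (Fin 4 → P2) →ₗ[P2] P2, ∀ v, f v = D.f X s 1 v :=
    ⟨{ toFun := fun v => D.f X s 1 v
       map_add' := fun u v => f_add D X s 1 u v
       map_smul' := fun c v => f_smul D X s 1 c v }, fun _ => rfl⟩
  obtain ⟨q, hq⟩ : ∃ q : QuadraticForm P2 (Fin 4 → P2), ∀ v, q v = D.h X 1 v :=
    ⟨(D.H (X : Fin 2 → P2) 1).comp emb, fun _ => rfl⟩
  obtain ⟨vx, hvx⟩ : ∃ vx : Fin 4 → P2, vx = ![v 0, v 1, 0, 0] := ⟨_, rfl⟩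
  obtain ⟨vy, hvy⟩ : ∃ vy : Fin 4 → P2, vy = ![0, 0, v 2, v 3] := ⟨_, rfl⟩
  have hsum : v = vx + vy := by
    rw [hvx, hvy]
    funext i
    fin_cases i <;> simp
  have hsplit : f vx ≠ 0 ∨ f vy ≠ 0 := by
    by_contra hcon
    push Not at hcon
    apply hv
    rw [← hf, hsum, map_add, hcon.1, hcon.2, add_zero]
  rcases hsplit with hx | hy
  · obtain ⟨x, hx'⟩ := exists_x hs ha hn
    obtain ⟨W, hW⟩ : ∃ W : Submodule P2 (Fin 4 → P2), W = LinearMap.ker (LinearMap.proj 2) ⊓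
      LinearMap.ker (LinearMap.proj 3) := ⟨_, rfl⟩
    obtain ⟨z, hzW, hzf, hzq⟩ := common_ne f q hx (v := ![C (x 0), C (x 1), 0, 0])
      (by rw [hq]; exact hx') W (by rw [hW, hvx]; simp) (by rw [hW]; simp)
    have hz : z 2 = 0 ∧ z 3 = 0 := by
      rw [hW] at hzW
      simpa using hzW
    refine rad_move D hH hw hrad hn (v := z) ?_ (by rw [← hq]; exact hzq) (by rw [← hf]; exact hzf)
    change D.H1 X (emb z) = 0
    simp only [H1_apply, Bq_apply, emb_apply]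
    simp [hz.1, hz.2]
  · obtain ⟨y, hy'⟩ := exists_y hs hb hn
    obtain ⟨W, hW⟩ : ∃ W : Submodule P2 (Fin 4 → P2), W = LinearMap.ker (LinearMap.proj 0) ⊓
      LinearMap.ker (LinearMap.proj 1) := ⟨_, rfl⟩
    obtain ⟨z, hzW, hzf, hzq⟩ := common_ne f q hy (v := ![0, 0, C (y 0), C (y 1)])
      (by rw [hq]; exact hy') W (by rw [hW, hvy]; simp) (by rw [hW]; simp)
    have hz : z 0 = 0 ∧ z 1 = 0 := by
      rw [hW] at hzW
      simpa using hzW
    refine rad_move D hH hw hrad hn (v := z) ?_ (by rw [← hq]; exact hzq) (by rw [← hf]; exact hzf)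
    change D.H1 X (emb z) = 0
    simp only [H1_apply, Bq_apply, cx_apply, emb_apply]
    simp [hz.1, hz.2]

end Pool.Agent.Helper94.SD
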