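import Pool.Agent.Helper69.SD.Setup

/-! # SD: a smooth member with a rational section

`A 0 = 0`, `A 1 = E11 + E13`, `A 2 = E22 + E33`, `a = b = e`, `l = (w + z, x₁ + y₁ + w, x₂ + y₂)`.  With `B = y₁ + w`:
`F = w z (w + z) + x₁ B (x₁ + B) + (x₂ + y₂) (x₂ y₂ + w²) + e z (x₁ x₂ + B y₂)`.
-/

set_option autoImplicit false
set_option linter.unusedVariables false
set_option linter.unusedSectionVars false

namespace Pool.Agent.Helper94.SD

open MvPolynomial Module Matrix Filter Topology Pool.Agent.Helper16 Pool.Agent.Helper69.SD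

/-- the example -/
noncomputable def ex (e : ℂ) : Dat where
  A := ![0, !![1, 0, 1; 0, 0, 0; 0, 0, 0], !![0, 0, 0; 0, 1, 0; 0, 0, 1]]
  a := e
  b := e
  l := ![![0, 0, 0, 0, 1, 1], ![1, 0, 1, 0, 1, 0], ![0, 1, 0, 1, 0, 0]]

variable {R : Type} [CommRing R] [Algebra ℂ R]

theorem ex_Q (e : ℂ) (p : Fin 6 → R) :
    (ex e).Q p = ![p 4 * p 5, p 0 * (p 2 + p 4), p 1 * p 3 + p 4 ^ 2] := by
  funext i
  fin_cases i <;>
    simp [Dat.Q, Dat.mx, ex, xv, yv, Matrix.mulVec, Matrix.vecMul, dotProduct,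
      Fin.sum_univ_succ] <;> ring

theorem ex_cubic (e : ℂ) (p : Fin 6 → R) :
    (ex e).cubic p = algebraMap ℂ R e * (p 5 * (p 0 * p 1 + (p 2 + p 4) * p 3)) +
      (p 4 + p 5) * (p 4 * p 5) + (p 0 + p 2 + p 4) * (p 0 * (p 2 + p 4)) +
      (p 1 + p 3) * (p 1 * p 3 + p 4 ^ 2) := by
  have h1 : ((ex e).mx p).det = p 5 * (p 0 * p 1) := by
    simp [Dat.mx, ex, xv, Matrix.vecMul, dotProduct, Fin.sum_univ_succ, Matrix.det_fin_three]
    ring
  have h2 : ((ex e).my p).det = p 5 * ((p 2 + p 4) * p 3) := by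
    simp [Dat.my, ex, yv, Matrix.mulVec, dotProduct, Fin.sum_univ_succ, Matrix.det_fin_three]
    ring
  rw [Dat.cubic, h1, h2, ex_Q]
  simp [ex, Fin.sum_univ_succ]
  ring

/-- the gradient -/
noncomputable def gr (e : ℂ) (p : Fin 6 → ℂ) : Fin 6 → ℂ :=
  ![e * (p 5 * p 1) + (p 2 + p 4) * (2 * p 0 + (p 2 + p 4)),
    e * (p 5 * p 0) + (2 * p 1 * p 3 + p 3 ^ 2 + p 4 ^ 2),
    e * (p 5 * p 3) + p 0 * (p 0 + 2 * (p 2 + p 4)),
    e * (p 5 * (p 2 + p 4)) + (2 * p 1 * p 3 + p 1 ^ 2 + p 4 ^ 2),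
    e * (p 5 * p 3) + (p 5 * (2 * p 4 + p 5) + p 0 * (p 0 + 2 * (p 2 + p 4)) +
      2 * p 4 * (p 1 + p 3)),
    e * (p 0 * p 1 + (p 2 + p 4) * p 3) + p 4 * (p 4 + 2 * p 5)]

theorem pderiv_F (e : ℂ) (p : Fin 6 → ℂ) (i : Fin 6) :
    eval p (pderiv i (ex e).F) = gr e p i := by
  rw [Dat.F, ex_cubic]
  fin_cases i <;>
    simp [gr, pderiv_X, Pi.single_apply, MvPolynomial.algebraMap_eq, pow_two] <;> ring

theorem gr_smul (e c : ℂ) (p : Fin 6 → ℂ) (i : Fin 6) : gr e (c • p) i = c ^ 2 * gr e p i := by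
  fin_cases i <;> simp [gr] <;> ring

/-- the form with `e = 0` is smooth -/
theorem gr_zero {p : Fin 6 → ℂ} (h : ∀ i, gr 0 p i = 0) : p = 0 := by
  have h0 := h 0
  have h1 := h 1
  have h2 := h 2
  have h3 := h 3
  have h4 := h 4
  have h5 := h 5
  simp only [gr, zero_mul, zero_add, cons_val] at h0 h1 h2 h3 h4 h5
  have e0 : p 0 = 0 := by
    rcases mul_eq_zero.1 h0 with hB | hB
    · rw [hB] at h2
      have : p 0 * p 0 = 0 := by linear_combination h2
      exact mul_self_eq_zero.1 this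
    · have h6 : p 2 + p 4 = -2 * p 0 := by linear_combination hB
      rw [h6] at h2
      have : p 0 * p 0 = 0 := by linear_combination (-1 / 3 : ℂ) * h2
      exact mul_self_eq_zero.1 this
  have e2 : p 2 + p 4 = 0 := by
    rw [e0] at h0
    have : (p 2 + p 4) * (p 2 + p 4) = 0 := by linear_combination h0
    exact mul_self_eq_zero.1 this
  rw [e0, e2] at h4
  have hw : p 4 = 0 := by
    rcases mul_eq_zero.1 h5 with hw | hw
    · exact hw
    · have h6 : p 4 = -2 * p 5 := by linear_combination hw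
      rw [h6] at h1 h3 h4
      by_cases hz : p 5 = 0
      · rw [h6, hz, mul_zero]
      · exfalso
        have h7 : p 5 * (3 * p 5 + 4 * (p 1 + p 3)) = 0 := by linear_combination -h4
        have h8 := (mul_eq_zero.1 h7).resolve_left hz
        have h9 : (p 3 - p 1) * (p 3 + p 1) = 0 := by linear_combination h1 - h3
        rcases mul_eq_zero.1 h9 with h10 | h10
        · have h11 : p 3 = p 1 := by linear_combination h10
          rw [h11] at h1 h8
          have h12 : p 1 = -3 / 8 * p 5 := by linear_combination (1 / 8 : ℂ) * h8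
          rw [h12] at h1
          have h13 : p 5 * p 5 = 0 := by linear_combination (64 / 283 : ℂ) * h1
          exact hz (mul_self_eq_zero.1 h13)
        · apply hz
          linear_combination (1 / 3 : ℂ) * h8 - (4 / 3 : ℂ) * h10
  rw [hw] at h1 h3 h4 e2
  have e5 : p 5 = 0 := by
    have : p 5 * p 5 = 0 := by linear_combination h4
    exact mul_self_eq_zero.1 this
  have h6 : p 3 * (2 * p 1 + p 3) = 0 := by linear_combination h1
  have h7 : p 1 * (2 * p 3 + p 1) = 0 := by linear_combination h3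
  have h8 : p 3 = 0 ∧ p 1 = 0 := by
    rcases mul_eq_zero.1 h6 with h9 | h9
    · rw [h9] at h7
      refine ⟨h9, ?_⟩
      have : p 1 * p 1 = 0 := by linear_combination h7
      exact mul_self_eq_zero.1 this
    · have h10 : p 3 = -2 * p 1 := by linear_combination h9
      rw [h10] at h7
      have : p 1 * p 1 = 0 := by linear_combination (-1 / 3 : ℂ) * h7
      have h11 := mul_self_eq_zero.1 this
      exact ⟨by rw [h10, h11]; ring, h11⟩
  funext i
  fin_cases i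
  · exact e0
  · exact h8.2
  · have : p 2 = 0 := by linear_combination e2
    exact this
  · exact h8.1
  · exact hw
  · exact e5

/-- the gradient is continuous in `(e, p)` -/
theorem gr_cont (i : Fin 6) : Continuous fun z : ℂ × (Fin 6 → ℂ) => gr z.1 z.2 i := by
  fin_cases i <;> simp only [gr, Fin.zero_eta, Fin.mk_one, Fin.reduceFinMk, cons_val] <;> fun_prop

/-- the form is smooth for small `e` -/
theorem smooth_near : ∀ᶠ e in 𝓝 (0 : ℂ), Smooth (ex e).F := by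
  have hK : IsCompact (Metric.sphere (0 : Fin 6 → ℂ) 1) := isCompact_sphere _ _
  have h1 : ∀ᶠ e in 𝓝 (0 : ℂ), ∀ p ∈ Metric.sphere (0 : Fin 6 → ℂ) 1, ∃ i, gr e p i ≠ 0 := by
    refine hK.eventually_forall_of_forall_eventually fun p hp => ?_
    have hp0 : p ≠ 0 := by
      intro h0
      rw [h0] at hp
      simp at hp
    obtain ⟨i, hi⟩ : ∃ i, gr 0 p i ≠ 0 := by
      by_contra hne
      push Not at hne
      exact hp0 (gr_zero hne)
    have h2 := (gr_cont i).continuousAt (x := ((0 : ℂ), p))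
    have h3 : ∀ᶠ z : ℂ × (Fin 6 → ℂ) in 𝓝 ((0 : ℂ), p), gr z.1 z.2 i ≠ 0 := h2.eventually_ne hi
    filter_upwards [h3] with z hz
    exact ⟨i, hz⟩
  filter_upwards [h1] with e he p hp
  have hn : ‖p‖ ≠ 0 := norm_ne_zero_iff.2 hp
  obtain ⟨i, hi⟩ := he (((‖p‖ : ℂ)⁻¹) • p) (by
    rw [mem_sphere_zero_iff_norm, norm_smul, norm_inv, Complex.norm_real, norm_norm,
      inv_mul_cancel₀ hn])
  refine ⟨i, fun h0 => hi ?_⟩
  rw [pderiv_F] at h0
  rw [gr_smul, h0, mul_zero]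

/-- the section -/
noncomputable def sec (e : ℂ) : Fin 6 → MvPolynomial (Fin 2) ℂ :=
  ![X 0 * (C e * X 0 + X 1 ^ 2), -(X 1 * (1 + X 1 + X 0 ^ 2 + X 0 * X 1)), 0, 0,
    X 1 * (C e * X 0 + X 1 ^ 2), C e * X 0 + X 1 ^ 2]

theorem q_ne (e : ℂ) : (C e * X 0 + X 1 ^ 2 : MvPolynomial (Fin 2) ℂ) ≠ 0 := by
  intro h
  have h1 := congrArg (eval ![0, 1]) h
  simp at h1

theorem section_ex (e : ℂ) : (ex e).RationalSection := by
  have hX : (X 1 : MvPolynomial (Fin 2) ℂ) ≠ 0 := X_ne_zero 1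
  refine ⟨sec e, ?_, ?_, ?_, ?_, ?_⟩
  · rw [ex_cubic]
    simp [sec, MvPolynomial.algebraMap_eq]
    ring
  · exact mul_ne_zero hX (q_ne e)
  · rw [ex_Q]
    exact mul_ne_zero (mul_ne_zero hX (q_ne e)) (q_ne e)
  · rw [ex_Q]
    simp [sec]
    ring
  · rw [ex_Q]
    simp [sec]
    ring

/-- there is a smooth member with a rational section -/
theorem exists_smooth : ∃ D : Dat, Smooth D.F ∧ D.a ≠ 0 ∧ D.b ≠ 0 ∧ (∃ c : Fin 2 → ℂ, D.dt c ≠ 0) ∧
    D.RationalSection := by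
  have h1 : ∀ᶠ e in 𝓝[≠] (0 : ℂ), Smooth (ex e).F ∧ e ≠ 0 :=
    (smooth_near.filter_mono nhdsWithin_le_nhds).and self_mem_nhdsWithin
  obtain ⟨e, he, h0⟩ := h1.exists
  refine ⟨ex e, he, h0, h0, ⟨![1, 1], ?_⟩, section_ex e⟩
  simp [Dat.dt, Dat.n, ex, cc]

end Pool.Agent.Helper94.SD
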